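import Pool.Agent.Y548.Generic

set_option autoImplicit false

namespace Pool.Agent.Y548

open Encodable Pool.Agent.Helper227

namespace Shell

/-- A two-colourable graph with decidable adjacency and a computable bound for the neighbours of
each vertex has a computable proper colouring with four colours. -/
theorem exists_colouring (G : SimpleGraph ℕ) (hA : S1 fun p : ℕ × ℕ => G.Adj p.1 p.2)
    (hA' : S1 fun p : ℕ × ℕ => ¬ G.Adj p.1 p.2)
    (hb : ∃ h : ℕ → ℕ, Computable h ∧ ∀ x y, G.Adj x y → y < h x) (hc : G.Colorable 2) :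
    ∃ c : ℕ → ℕ, Computable c ∧ (∀ x, c x < 4) ∧ ∀ x y, G.Adj x y → c x ≠ c y := by
  classical
  obtain ⟨h, hh, hh2⟩ := hb
  -- the next boundary
  have hlt : ∀ m : ℕ, ∃ n : ℕ, m < n ∧ ∀ x < m, h x ≤ n := by
    intro m
    refine ⟨m + 1 + ∑ x ∈ Finset.range m, h x, by omega, fun x hx => ?_⟩
    have := Finset.single_le_sum (f := h) (fun _ _ => Nat.zero_le _) (Finset.mem_range.2 hx)
    omega
  have hs1 : S1 fun x : ℕ × ℕ => x.1 < x.2 ∧ ∀ y < x.1, h y ≤ x.2 := by
    refine S1.and (S1.of_prim (Primrec.nat_lt.comp Primrec.fst Primrec.snd)) ?_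
    refine S1.all_lt (p := fun (x : ℕ × ℕ) (y : ℕ) => h y ≤ x.2) (f := fun x => x.1) ?_ Primrec.fst
    refine S1.comp_computable (p := fun z : ℕ × ℕ => z.1 ≤ z.2)
      (f := fun x : (ℕ × ℕ) × ℕ => (h x.2, x.1.2)) (S1.of_prim ?_) ?_
    · exact Primrec.nat_le.comp Primrec.fst Primrec.snd
    · exact (hh.comp Computable.snd).pair (Computable.snd.comp Computable.fst)
  obtain ⟨g, hg, hg2⟩ := S1.choose hs1 hlt
  let b : ℕ → ℕ := fun n => Nat.rec 0 (fun _ m => g m) n
  have hb0 : b 0 = 0 := rfl
  have hb1 : ∀ n, b (n + 1) = g (b n) := fun n => rfl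
  have hbc : Computable b := by
    refine Computable.nat_rec (f := fun n : ℕ => n) (g := fun _ => 0)
      (h := fun (_ : ℕ) (z : ℕ × ℕ) => g z.2) Computable.id (Computable.const 0) ?_
    exact hg.comp (Computable.snd.comp Computable.snd)
  have hbmono : StrictMono b := strictMono_nat_of_lt_succ fun n => by rw [hb1]; exact (hg2 _).1
  have hbnext : ∀ k x y, x < b k → G.Adj x y → y < b (k + 1) := by
    intro k x y hx hxy
    have h1 := hh2 x y hxy
    have h2 := (hg2 (b k)).2 x hx
    rw [hb1]
    omega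
  -- the index of the shell
  have hk : ∀ x : ℕ, ∃ k : ℕ, b k ≤ x ∧ x < b (k + 1) := by
    intro x
    have hex : ∃ k, x < b (k + 1) := ⟨x, lt_of_lt_of_le (Nat.lt_succ_self x) (hbmono.id_le (x + 1))⟩
    refine ⟨Nat.find hex, ?_, Nat.find_spec hex⟩
    by_contra hcon
    push Not at hcon
    rcases Nat.eq_zero_or_pos (Nat.find hex) with h0 | h0
    · rw [h0, hb0] at hcon
      omega
    · have h1 := Nat.find_min hex (m := Nat.find hex - 1) (by omega)
      rw [show Nat.find hex - 1 + 1 = Nat.find hex by omega] at h1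
      omega
  have hs2 : S1 fun x : ℕ × ℕ => b x.2 ≤ x.1 ∧ x.1 < b (x.2 + 1) := by
    refine S1.comp_computable (p := fun z : (ℕ × ℕ) × ℕ => z.1.1 ≤ z.2 ∧ z.2 < z.1.2)
      (f := fun x : ℕ × ℕ => ((b x.2, b (x.2 + 1)), x.1)) (S1.of_prim ?_) ?_
    · exact PrimrecPred.and (Primrec.nat_le.comp (Primrec.fst.comp Primrec.fst) Primrec.snd)
        (Primrec.nat_lt.comp Primrec.snd (Primrec.snd.comp Primrec.fst))
    · exact ((hbc.comp Computable.snd).pair (hbc.comp (Computable.succ.comp Computable.snd))).pair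
        Computable.fst
  obtain ⟨κ, hκ, hκ2⟩ := S1.choose hs2 hk
  -- colourings of the finite graphs
  obtain ⟨col⟩ := hc
  have hL : ∀ n : ℕ, ∃ L : List Bool, ∀ x < n, ∀ y < n, ¬ G.Adj x y ∨
      L.getD x false = !(L.getD y false) := by
    intro n
    refine ⟨(List.range n).map fun x => decide (col x = 0), fun x hx y hy => ?_⟩
    by_cases hxy : G.Adj x y
    · right
      have hne := col.valid hxy
      have e : ∀ z, z < n → ((List.range n).map fun x => decide (col x = 0)).getD z false =
          decide (col z = 0) := by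
        intro z hz
        simp [List.getD, hz]
      rw [e x hx, e y hy]
      have h1 : ∀ a b : Fin 2, a ≠ b → decide (a = 0) = !(decide (b = 0)) := by decide
      exact h1 _ _ hne
    · exact Or.inl hxy
  have hs3 : S1 fun x : ℕ × List Bool => ∀ y < x.1, ∀ z < x.1, ¬ G.Adj y z ∨
      x.2.getD y false = !(x.2.getD z false) := by
    refine S1.all_lt (p := fun (x : ℕ × List Bool) (y : ℕ) => ∀ z < x.1, ¬ G.Adj y z ∨
      x.2.getD y false = !(x.2.getD z false)) (f := fun x => x.1) ?_ Primrec.fst
    refine S1.all_lt (p := fun (x : (ℕ × List Bool) × ℕ) (z : ℕ) => ¬ G.Adj x.2 z ∨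
      x.1.2.getD x.2 false = !(x.1.2.getD z false)) (f := fun x => x.1.1) ?_
      (Primrec.fst.comp Primrec.fst)
    refine S1.or (hA'.comp (f := fun x : ((ℕ × List Bool) × ℕ) × ℕ => (x.1.2, x.2)) ?_)
      (S1.of_prim ?_)
    · exact (Primrec.snd.comp Primrec.fst).pair Primrec.snd
    · have g1 : Primrec fun x : ((ℕ × List Bool) × ℕ) × ℕ => x.1.1.2 :=
        Primrec.snd.comp (Primrec.fst.comp Primrec.fst)
      exact Primrec.eq.comp ((Primrec.list_getD false).comp g1 (Primrec.snd.comp Primrec.fst))
        (Primrec.not.comp ((Primrec.list_getD false).comp g1 Primrec.snd))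
  obtain ⟨F, hF, hF2⟩ := S1.choose hs3 hL
  -- the colouring
  refine ⟨fun x => 2 * (κ x % 2) + ((F (b (κ x + 1))).getD x false).toNat, ?_, ?_, ?_⟩
  · have c1 : Computable fun x => F (b (κ x + 1)) :=
      hF.comp (hbc.comp (Computable.succ.comp hκ))
    have c2 : Computable fun x => (F (b (κ x + 1))).getD x false :=
      ((Primrec.list_getD false).to_comp).comp c1 Computable.id
    have c3 : Computable fun x => ((F (b (κ x + 1))).getD x false).toNat :=
      ((Primrec.dom_bool Bool.toNat).to_comp).comp c2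
    have c4 : Computable fun x => 2 * (κ x % 2) := by
      have p1 : Primrec fun n : ℕ => 2 * (n % 2) :=
        Primrec.nat_mul.comp (Primrec.const 2) (Primrec.nat_mod.comp Primrec.id (Primrec.const 2))
      exact p1.to_comp.comp hκ
    exact (Primrec.nat_add.to_comp).comp c4 c3
  · intro x
    have h1 : κ x % 2 < 2 := Nat.mod_lt _ (by norm_num)
    have h2 : ((F (b (κ x + 1))).getD x false).toNat ≤ 1 := Bool.toNat_le _
    show 2 * (κ x % 2) + ((F (b (κ x + 1))).getD x false).toNat < 4
    omega
  · -- adjacent vertices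
    have key : ∀ x y, G.Adj x y → κ x ≤ κ y → 2 * (κ x % 2) +
        ((F (b (κ x + 1))).getD x false).toNat ≠ 2 * (κ y % 2) +
        ((F (b (κ y + 1))).getD y false).toNat := by
      intro x y hxy hle
      have h2 : ((F (b (κ x + 1))).getD x false).toNat ≤ 1 := Bool.toNat_le _
      have h2' : ((F (b (κ y + 1))).getD y false).toNat ≤ 1 := Bool.toNat_le _
      have hx := hκ2 x
      have hy := hκ2 y
      have h3 : y < b (κ x + 1 + 1) := hbnext (κ x + 1) x y hx.2 hxy
      have h4 : κ y < κ x + 2 := by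
        by_contra hcon
        push Not at hcon
        have h5 : b (κ x + 1 + 1) ≤ b (κ y) := hbmono.monotone (by omega)
        omega
      rcases Nat.lt_or_ge (κ x) (κ y) with h5 | h5
      · have h6 : κ y = κ x + 1 := by omega
        rw [h6] at h2' ⊢
        omega
      · have h6 : κ y = κ x := by omega
        rw [h6] at h2' ⊢
        have hy2 := hy.2
        rw [h6] at hy2
        rcases hF2 (b (κ x + 1)) x hx.2 y hy2 with h7 | h7
        · exact absurd hxy h7
        · rw [h7]
          cases (F (b (κ x + 1))).getD y false <;> simp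
    intro x y hxy
    rcases le_total (κ x) (κ y) with hle | hle
    · exact key x y hxy hle
    · exact (key y x hxy.symm hle).symm

end Shell

end Pool.Agent.Y548
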