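import Pool.Agent.Y548.FC

set_option autoImplicit false

/-!
The computable presentation of the algebra of finite and cofinite sets coming from `≼`.
-/

namespace Pool.Agent.Y548.FC

open Encodable Pool.Agent.Helper227 Pool.Agent.Y548

open Classical in
/-- parity of the number of `s < k` in (the binary expansion of) `n` with `s ≼ x` -/
noncomputable def par (n x k : ℕ) : Bool :=
  Nat.rec (motive := fun _ => Bool) false
    (fun j b => xor b (decide (n.testBit j = true ∧ le j x))) k

theorem par_zero (n x : ℕ) : par n x 0 = false := rfl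

open Classical in
theorem par_succ (n x k : ℕ) :
    par n x (k + 1) = xor (par n x k) (decide (n.testBit k = true ∧ le k x)) := rfl

theorem testBit_prim : PrimrecPred fun x : ℕ × ℕ => x.1.testBit x.2 = true := by
  have hpow : Primrec fun i : ℕ => 2 ^ i := by
    have h1 : Primrec fun i : ℕ => Nat.rec (motive := fun _ => ℕ) 1 (fun _ b => b + b) i :=
      Primrec.nat_rec₁ 1 (Primrec.nat_add.comp Primrec.snd Primrec.snd)
    refine h1.of_eq fun i => ?_
    induction i with
    | zero => rfl
    | succ i ih => simp only [ih, pow_succ]; omega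
  have h : PrimrecPred fun x : ℕ × ℕ => x.1 / 2 ^ x.2 % 2 = 1 :=
    Primrec.eq.comp (Primrec.nat_mod.comp (Primrec.nat_div.comp Primrec.fst
      (hpow.comp Primrec.snd)) (Primrec.const 2)) (Primrec.const 1)
  refine h.of_eq fun x => ?_
  rw [Nat.testBit_eq_decide_div_mod_eq]
  simp

theorem par_prim : Primrec fun x : (ℕ × ℕ) × ℕ => par x.1.1 x.1.2 x.2 := by
  classical
  have hpred : PrimrecPred fun y : ((ℕ × ℕ) × ℕ) × (ℕ × Bool) =>
      y.1.1.1.testBit y.2.1 = true ∧ le y.2.1 y.1.1.2 := by
    refine PrimrecPred.and ?_ ?_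
    · exact testBit_prim.comp ((Primrec.fst.comp (Primrec.fst.comp Primrec.fst)).pair
        (Primrec.fst.comp Primrec.snd))
    · exact le_prim.comp (Primrec.fst.comp Primrec.snd)
        (Primrec.snd.comp (Primrec.fst.comp Primrec.fst))
  have hxor : Primrec₂ xor := (Primrec.dom_finite (fun p : Bool × Bool => xor p.1 p.2))
  have h1 : Primrec₂ fun (x : (ℕ × ℕ) × ℕ) (y : ℕ × Bool) =>
      xor y.2 (decide (x.1.1.testBit y.1 = true ∧ le y.1 x.1.2)) :=
    hxor.comp (Primrec.snd.comp Primrec.snd) hpred.decide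
  exact Primrec.nat_rec' (f := fun x : (ℕ × ℕ) × ℕ => x.2) (g := fun _ => false)
    (h := fun x y => xor y.2 (decide (x.1.1.testBit y.1 = true ∧ le y.1 x.1.2)))
    Primrec.snd (Primrec.const false) h1

theorem par_xor (m n x k : ℕ) : par (m ^^^ n) x k = xor (par m x k) (par n x k) := by
  classical
  induction k with
  | zero => rfl
  | succ k ih =>
    rw [par_succ, par_succ, par_succ, ih, Nat.testBit_xor]
    by_cases hl : le k x <;> cases m.testBit k <;> cases n.testBit k <;>
      cases par m x k <;> cases par n x k <;> simp [hl]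

theorem par_stable {n x k : ℕ} (h : n ≤ k) : par n x k = par n x n := by
  classical
  induction k with
  | zero => rw [Nat.le_zero.1 h]
  | succ k ih =>
    rcases Nat.lt_or_ge k n with h1 | h1
    · rw [show n = k + 1 by omega]
    · rw [par_succ, ih h1]
      have h2 : n.testBit k = false :=
        Nat.testBit_lt_two_pow (lt_of_le_of_lt h1 Nat.lt_two_pow_self)
      simp [h2]

theorem par_congr {n x y k : ℕ} (h : ∀ s, s < k → (le s x ↔ le s y)) : par n x k = par n y k := by
  classical
  induction k with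
  | zero => rfl
  | succ k ih =>
    rw [par_succ, par_succ, ih fun s hs => h s (by omega)]
    have := h k (by omega)
    simp only [this]

/-- a single relevant element -/
theorem par_single {n x k m : ℕ} (h : ∀ s, s < k → (n.testBit s = true ∧ le s x ↔ s = m)) :
    par n x k = true ↔ m < k := by
  classical
  induction k with
  | zero => simp [par_zero]
  | succ k ih =>
    have ih' := ih fun s hs => h s (by omega)
    have hk := h k (by omega)
    rw [par_succ]
    simp only [hk]
    by_cases hkm : k = m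
    · subst hkm
      have : par n x k = false := by
        rw [← Bool.not_eq_true]; intro h1; exact absurd (ih'.1 h1) (lt_irrefl _)
      simp [this]
    · simp only [hkm, decide_false, Bool.xor_false]
      rw [ih']; omega

/-- the set with code `n` -/
def X (n : ℕ) : Set ℕ := {x | par n x n = true}

theorem mem_X {n x k : ℕ} (h : n ≤ k) : x ∈ X n ↔ par n x k = true := by
  rw [par_stable h]; rfl

theorem mem_X_xor {m n x : ℕ} : x ∈ X (m ^^^ n) ↔ Xor (x ∈ X m) (x ∈ X n) := by
  have h1 : (m ^^^ n) ≤ m + n + (m ^^^ n) := by omega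
  rw [mem_X h1, mem_X (show m ≤ m + n + (m ^^^ n) by omega),
    mem_X (show n ≤ m + n + (m ^^^ n) by omega), par_xor]
  cases par m x (m + n + (m ^^^ n)) <;> cases par n x (m + n + (m ^^^ n)) <;> simp [Xor]

theorem X_zero : X 0 = ∅ := by
  ext x; simp [X, par_zero]

theorem mem_X_two_pow {s x : ℕ} : x ∈ X (2 ^ s) ↔ le s x := by
  rw [mem_X (n := 2 ^ s) (k := 2 ^ s) _root_.le_rfl]
  by_cases h : le s x
  · have h1 : par (2 ^ s) x (2 ^ s) = true ↔ s < 2 ^ s := by
      apply par_single
      intro t _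
      rw [Nat.testBit_two_pow]
      constructor
      · rintro ⟨h1, _⟩; simpa using (of_decide_eq_true h1).symm
      · rintro rfl; exact ⟨by simp, h⟩
    rw [h1]
    simp [h, Nat.lt_two_pow_self]
  · have h1 : par (2 ^ s) x (2 ^ s) = true ↔ 2 ^ s < 2 ^ s := by
      apply par_single
      intro t ht
      rw [Nat.testBit_two_pow]
      constructor
      · rintro ⟨h1, h2⟩
        have : s = t := of_decide_eq_true h1
        exact absurd (this ▸ h2) h
      · rintro rfl; exact absurd ht (lt_irrefl _)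
    rw [h1]
    simp [h]

theorem X_one : X 1 = Set.univ := by
  ext x
  have h := mem_X_two_pow (s := 0) (x := x)
  rw [pow_zero] at h
  rw [h]
  simp [zero_le]

theorem exists_mem_X {d : ℕ} (hd : d ≠ 0) : ∃ x, x ∈ X d := by
  classical
  obtain ⟨i, hi⟩ : ∃ i, d.testBit i = true := by
    by_contra h
    push Not at h
    apply hd
    apply Nat.eq_of_testBit_eq
    intro i
    simp [Bool.eq_false_of_not_eq_true (h i)]
  have hlt : ∀ j, d.testBit j = true → j < d := by
    intro j hj
    by_contra h
    have h2 : d.testBit j = false :=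
      Nat.testBit_lt_two_pow (lt_of_le_of_lt (not_lt.1 h) Nat.lt_two_pow_self)
    rw [h2] at hj; exact absurd hj (by simp)
  obtain ⟨m, hm, hm'⟩ := exists_min_finset ((Finset.range d).filter fun j => d.testBit j = true)
    ⟨i, by simp [hi, hlt i hi]⟩
  simp only [Finset.mem_filter, Finset.mem_range] at hm hm'
  refine ⟨m, ?_⟩
  rw [mem_X (n := d) (k := d) _root_.le_rfl, par_single (m := m)]
  · exact hm.1
  · intro s hs
    constructor
    · rintro ⟨h1, h2⟩
      exact le_antisymm h2 (hm' s ⟨hs, h1⟩)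
    · rintro rfl
      exact ⟨hm.2, le_refl s⟩

theorem X_injective : Function.Injective X := by
  intro m n h
  by_contra hne
  have hd : m ^^^ n ≠ 0 := by
    intro h0
    apply hne
    apply Nat.eq_of_testBit_eq
    intro i
    have h1 : (m ^^^ n).testBit i = false := by rw [h0]; simp
    rw [Nat.testBit_xor] at h1
    cases h2 : m.testBit i <;> cases h3 : n.testBit i <;> simp_all
  obtain ⟨x, hx⟩ := exists_mem_X hd
  rw [mem_X_xor, h] at hx
  simp [Xor] at hx

theorem X_two_pow_infinite {s : ℕ} : (X (2 ^ s)).Infinite ↔ Tr s := by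
  constructor
  · intro h
    by_contra h1
    obtain ⟨N, hN⟩ := not_le_of_not_tr h1
    apply h
    refine (Set.finite_lt_nat N).subset fun x hx => ?_
    by_contra h2
    exact hN x (not_lt.1 h2) (mem_X_two_pow.1 hx)
  · intro h
    refine (Set.infinite_of_not_bddAbove ?_)
    rintro ⟨N, hN⟩
    have h1 : max s N + 1 ∈ X (2 ^ s) := mem_X_two_pow.2 (le_of_tr h (by omega))
    have := hN h1
    omega

theorem par_const (n k : ℕ) : ∃ (N : ℕ) (b : Bool), ∀ x, N ≤ x → par n x k = b := by
  classical
  induction k with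
  | zero => exact ⟨0, false, fun _ _ => rfl⟩
  | succ k ih =>
    obtain ⟨N, b, hN⟩ := ih
    by_cases h : Tr k
    · refine ⟨max N (k + 1), xor b (decide (n.testBit k = true)), fun x hx => ?_⟩
      rw [par_succ, hN x (by omega)]
      have : le k x := le_of_tr h (by omega)
      simp [this]
    · obtain ⟨M, hM⟩ := not_le_of_not_tr h
      refine ⟨max N M, b, fun x hx => ?_⟩
      rw [par_succ, hN x (by omega)]
      have : ¬ le k x := hM x (by omega)
      simp [this]

theorem X_fin (n : ℕ) : (X n).Finite ∨ (X n)ᶜ.Finite := by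
  obtain ⟨N, b, h⟩ := par_const n n
  cases b with
  | false =>
    left
    refine (Set.finite_lt_nat N).subset fun x hx => ?_
    by_contra h2
    have := h x (not_lt.1 h2)
    simp only [X] at hx
    exact absurd (hx.symm.trans this) (by simp)
  | true =>
    right
    refine (Set.finite_lt_nat N).subset fun x hx => ?_
    by_contra h2
    exact hx (h x (not_lt.1 h2))

theorem singleton_mem (x : ℕ) : ∃ n, X n = {x} := by
  by_cases h : ∃ y, le x y ∧ y ≠ x
  · have hmin : ∃ y0 ∈ {y | le x y ∧ y ≠ x}, ∀ y ∈ {y | le x y ∧ y ≠ x}, le y0 y := by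
      by_cases hx : Tr x
      · obtain ⟨a, ha, _, hxa⟩ := exists_tr x
        refine exists_min _ a ⟨le_of_tr hx hxa, by omega⟩ ?_
        refine (Set.finite_lt_nat (a + 1)).subset ?_
        rintro y ⟨_, hy⟩
        by_contra h2
        have h3 : a < y := by simpa using h2
        exact absurd (le_antisymm hy (le_of_tr ha h3)) (by omega)
      · obtain ⟨a, ha⟩ := h
        obtain ⟨N, hN⟩ := not_le_of_not_tr hx
        refine exists_min _ a ha ?_
        refine (Set.finite_lt_nat N).subset ?_
        rintro y ⟨⟨hy, _⟩, _⟩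
        by_contra h2
        exact hN y (not_lt.1 h2) hy
    obtain ⟨y0, ⟨h1, h2⟩, h3⟩ := hmin
    refine ⟨2 ^ x ^^^ 2 ^ y0, ?_⟩
    ext z
    rw [mem_X_xor, mem_X_two_pow, mem_X_two_pow, Set.mem_singleton_iff]
    constructor
    · rintro (⟨h4, h5⟩ | ⟨h4, h5⟩)
      · by_contra hz
        exact h5 (h3 z ⟨h4, hz⟩)
      · exact absurd (le_trans h1 h4) h5
    · rintro rfl
      refine Or.inl ⟨le_refl z, fun h4 => h2 (le_antisymm h4 h1)⟩
  · push Not at h
    refine ⟨2 ^ x, ?_⟩
    ext z
    rw [mem_X_two_pow, Set.mem_singleton_iff]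
    constructor
    · intro hz
      exact h z hz
    · rintro rfl
      exact le_refl z

theorem finite_mem {F : Set ℕ} (hF : F.Finite) : ∃ n, X n = F := by
  induction F, hF using Set.Finite.induction_on with
  | empty => exact ⟨0, X_zero⟩
  | @insert a s ha hs ih =>
    obtain ⟨n, hn⟩ := ih
    obtain ⟨m, hm⟩ := singleton_mem a
    refine ⟨m ^^^ n, ?_⟩
    ext z
    rw [mem_X_xor, hm, hn, Set.mem_singleton_iff, Set.mem_insert_iff]
    constructor
    · rintro (⟨h4, _⟩ | ⟨h4, _⟩)
      · exact Or.inl h4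
      · exact Or.inr h4
    · rintro (rfl | h4)
      · exact Or.inl ⟨rfl, ha⟩
      · refine Or.inr ⟨h4, ?_⟩
        rintro rfl
        exact ha h4

theorem range_X : Set.range X = {A | A.Finite ∨ Aᶜ.Finite} := by
  ext A
  constructor
  · rintro ⟨n, rfl⟩
    exact X_fin n
  · rintro (h | h)
    · obtain ⟨n, hn⟩ := finite_mem h
      exact ⟨n, hn⟩
    · obtain ⟨n, hn⟩ := finite_mem h
      refine ⟨1 ^^^ n, ?_⟩
      ext z
      rw [mem_X_xor, X_one, hn]
      simp [Xor]

/-- the greatest element below `x` among the numbers `≤ N` -/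
theorem exists_floor (x N : ℕ) : ∃ y, y ≤ N ∧ ∀ s, s ≤ N → (le s x ↔ le s y) := by
  classical
  obtain ⟨y, hy, hy'⟩ := exists_max_finset ((Finset.range (N + 1)).filter fun s => le s x)
    ⟨0, by simp [zero_le]⟩
  simp only [Finset.mem_filter, Finset.mem_range] at hy hy'
  refine ⟨y, by omega, fun s hs => ⟨fun h => hy' s ⟨by omega, h⟩, fun h => le_trans h hy.2⟩⟩

theorem floor_mem {x y n N : ℕ} (hn : n ≤ N) (h : ∀ s, s ≤ N → (le s x ↔ le s y)) :
    x ∈ X n ↔ y ∈ X n := by
  rw [mem_X (n := n) (k := n) _root_.le_rfl, mem_X (n := n) (k := n) _root_.le_rfl,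
    par_congr fun s hs => h s (by omega)]

/-- A Boolean relation between codes is decidable. -/
theorem bool_rel_prim (F : Bool → Bool → Bool → Bool) : PrimrecPred fun p : (ℕ × ℕ) × ℕ =>
    ∀ x, F (par p.1.1 x p.1.1) (par p.1.2 x p.1.2) (par p.2 x p.2) = true := by
  have h1 : PrimrecPred fun p : (ℕ × ℕ) × ℕ => ∀ x < p.1.1 + p.1.2 + p.2 + 1,
      F (par p.1.1 x p.1.1) (par p.1.2 x p.1.2) (par p.2 x p.2) = true := by
    refine PP.all_lt (α := (ℕ × ℕ) × ℕ) (f := fun p => p.1.1 + p.1.2 + p.2 + 1)
      (p := fun p x => F (par p.1.1 x p.1.1) (par p.1.2 x p.1.2) (par p.2 x p.2) = true) ?_ ?_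
    · have hF : Primrec fun b : Bool × Bool × Bool => F b.1 b.2.1 b.2.2 := Primrec.dom_finite _
      have ha : Primrec fun y : ((ℕ × ℕ) × ℕ) × ℕ => y.1.1.1 :=
        Primrec.fst.comp (Primrec.fst.comp Primrec.fst)
      have hb : Primrec fun y : ((ℕ × ℕ) × ℕ) × ℕ => y.1.1.2 :=
        Primrec.snd.comp (Primrec.fst.comp Primrec.fst)
      have hc : Primrec fun y : ((ℕ × ℕ) × ℕ) × ℕ => y.1.2 := Primrec.snd.comp Primrec.fst
      have hx : Primrec fun y : ((ℕ × ℕ) × ℕ) × ℕ => y.2 := Primrec.snd
      have hp : ∀ {f : ((ℕ × ℕ) × ℕ) × ℕ → ℕ}, Primrec f →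
          Primrec fun y : ((ℕ × ℕ) × ℕ) × ℕ => par (f y) y.2 (f y) := fun {f} hf =>
        par_prim.comp ((hf.pair hx).pair hf)
      exact Primrec.eq.comp (hF.comp ((hp ha).pair ((hp hb).pair (hp hc)))) (Primrec.const true)
    · exact Primrec.succ.comp (Primrec.nat_add.comp (Primrec.nat_add.comp
        (Primrec.fst.comp Primrec.fst) (Primrec.snd.comp Primrec.fst)) Primrec.snd)
  refine h1.of_eq fun p => ⟨fun h x => ?_, fun h x _ => h x⟩
  obtain ⟨y, hy, hy'⟩ := exists_floor x (p.1.1 + p.1.2 + p.2)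
  have h2 := h y (by omega)
  have h3 : ∀ n, n ≤ p.1.1 + p.1.2 + p.2 → par n x n = par n y n := fun n hn =>
    par_congr fun s hs => hy' s (by omega)
  rw [h3 p.1.1 (by omega), h3 p.1.2 (by omega), h3 p.2 (by omega)]
  exact h2

end Pool.Agent.Y548.FC
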