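import Pool.Agent.Helper227.RD.Jump

set_option autoImplicit false

namespace Pool.Agent.Y548

open Encodable Pool.Agent.Helper227
open Nat.Partrec (Code)

variable {α β γ : Type*} [Primcodable α] [Primcodable β] [Primcodable γ]

/-- Uniformization of Sigma-one relations by computable functions. -/
theorem S1.choose {p : α → β → Prop} (hp : S1 fun x : α × β => p x.1 x.2) (h : ∀ a, ∃ b, p a b) :
    ∃ f : α → β, Computable f ∧ ∀ a, p a (f a) := by
  classical
  obtain ⟨q, hq, hm, he⟩ := hp
  -- `k` codes `(n, b)`
  have hpred : PrimrecRel fun (a : α) (k : ℕ) =>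
      ∃ b ∈ (decode (α := β) (Nat.unpair k).2).toList, q (a, b) (Nat.unpair k).1 := by
    refine PP.ex_mem (α := α × ℕ) (p := fun x b => q (x.1, b) (Nat.unpair x.2).1) ?_ ?_
    · exact hq.comp ((Primrec.fst.comp Primrec.fst).pair Primrec.snd)
        (Primrec.fst.comp (Primrec.unpair.comp (Primrec.snd.comp Primrec.fst)))
    · exact Primrec.optionToList.comp (Primrec.decode.comp (Primrec.snd.comp
        (Primrec.unpair.comp Primrec.snd)))
  have hex : ∀ a, ∃ k, ∃ b ∈ (decode (α := β) (Nat.unpair k).2).toList, q (a, b) (Nat.unpair k).1 := by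
    intro a
    obtain ⟨b, hb⟩ := h a
    obtain ⟨n, hn⟩ := (he (a, b)).1 hb
    exact ⟨Nat.pair n (encode b), b, by simp [encodek], by simpa using hn⟩
  have hfind : Computable fun a => Nat.find (hex a) := by
    have h1 : Computable₂ fun (a : α) (k : ℕ) => decide (∃ b ∈ (decode (α := β) (Nat.unpair k).2).toList,
        q (a, b) (Nat.unpair k).1) := (hpred.decide).to_comp
    have h2 : Partrec fun a : α => Nat.rfind fun k => Part.some (decide (∃ b ∈ (decode (α := β)
        (Nat.unpair k).2).toList, q (a, b) (Nat.unpair k).1)) := Partrec.rfind h1.partrec₂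
    refine h2.of_eq fun a => ?_
    refine Part.eq_some_iff.2 (Nat.mem_rfind.2 ⟨?_, fun {m} hm => ?_⟩)
    · have := Nat.find_spec (hex a)
      simpa using this
    · have := Nat.find_min (hex a) hm
      simpa using this
  have hne : ∀ a, ∃ b, decode (α := β) (Nat.unpair (Nat.find (hex a))).2 = some b := by
    intro a
    obtain ⟨b, hb, _⟩ := Nat.find_spec (hex a)
    exact ⟨b, by simpa using hb⟩
  choose f hf using hne
  refine ⟨f, ?_, fun a => ?_⟩
  · have h3 : Computable fun a => decode (α := β) (Nat.unpair (Nat.find (hex a))).2 :=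
      Computable.decode.comp (Computable.snd.comp (Computable.unpair.comp hfind))
    have h4 : Partrec fun a => ((decode (α := β) (Nat.unpair (Nat.find (hex a))).2 : Option β) : Part β) :=
      h3.ofOption
    refine h4.of_eq fun a => ?_
    rw [hf a]
    rfl
  · obtain ⟨b, hb, hq'⟩ := Nat.find_spec (hex a)
    have : b = f a := by
      rw [hf a] at hb
      simpa using hb
    exact (he (a, f a)).2 ⟨_, this ▸ hq'⟩

open Classical in
/-- The halting problem. -/
noncomputable def K0 : ℕ → Bool := fun n => decide ((Denumerable.ofNat Code n).eval n).Dom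

theorem K0_eq_true {n : ℕ} : K0 n = true ↔ ((Denumerable.ofNat Code n).eval n).Dom := by
  simp [K0]

theorem S1.to_K0 {p : α → Prop} (hp : S1 p) :
    ∃ f : α → ℕ, Computable f ∧ ∀ a, p a ↔ K0 (f a) = true := by
  have h1 : S1 fun m : ℕ => ∃ a : α, encode a = m ∧ p a := by
    refine S1.ex (S1.and (S1.of_prim ?_) (hp.comp Primrec.snd))
    exact Primrec.eq.comp (Primrec.encode.comp Primrec.snd) Primrec.fst
  obtain ⟨c, hc⟩ := Nat.Partrec.Code.exists_code.1 h1.re
  refine ⟨fun a => encode (Code.comp c (Code.const (encode a))), ?_, fun a => ?_⟩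
  · have h2 : Primrec fun a : α => Code.comp c (Code.const (encode a)) :=
      Nat.Partrec.Code.primrec₂_comp.comp (Primrec.const c)
        (Nat.Partrec.Code.primrec_const.comp Primrec.encode)
    exact (Primrec.encode.comp h2).to_comp
  · rw [K0_eq_true, Denumerable.ofNat_encode]
    have : (c.comp (Code.const (encode a))).eval (encode (c.comp (Code.const (encode a)))) =
        c.eval (encode a) := by
      simp [Code.eval]
    rw [this, hc]
    simp [Part.assert]

theorem S1.decide_K0 {p : α → Prop} (hp : S1 p) : SI K0 p ∧ SI K0 fun a => ¬ p a := by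
  obtain ⟨f, hf, h⟩ := S1.to_K0 hp
  constructor
  · refine (SI.comp_computable (f := fun a => (f a, true)) (SI.query (B := K0))
      (hf.pair (Computable.const true))).of_eq fun a => (h a).symm
  · refine (SI.comp_computable (f := fun a => (f a, false)) (SI.query (B := K0))
      (hf.pair (Computable.const false))).of_eq fun a => ?_
    rw [h a]
    simp

end Pool.Agent.Y548
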