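import Pool.Agent.Y548.Base

set_option autoImplicit false

/-!
A computable linear order `≼` on `ℕ` of type `ω + ω*` whose initial segment of type `ω` is not
computable, and the induced computable presentation of the Boolean algebra of finite and cofinite
sets of natural numbers, in which finiteness is not decidable.
-/

namespace Pool.Agent.Y548.FC

open Encodable Pool.Agent.Helper227 Pool.Agent.Y548
open Nat.Partrec (Code)

/-- a halting problem -/
def K (n : ℕ) : Prop := ((Denumerable.ofNat Code n).eval 0).Dom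

theorem s1_K : S1 K := by
  apply S1.of_re
  have h1 : Partrec fun n : ℕ => (Denumerable.ofNat Code n).eval 0 :=
    Nat.Partrec.Code.eval_part.comp (Computable.ofNat Code) (Computable.const 0)
  exact h1.dom_re

theorem not_computable_K : ¬ ComputablePred K := by
  intro h
  apply ComputablePred.halting_problem 0
  obtain ⟨hd, hh⟩ := h
  have h1 : ComputablePred fun c : Code => K (encode c) :=
    ⟨fun c => hd (encode c), hh.comp Computable.encode⟩
  exact h1.of_eq fun c => by simp [K]

/-- the matrix of `K` -/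
noncomputable def q : ℕ → ℕ → Prop := Classical.choose s1_K

theorem q_prim : PrimrecRel q := (Classical.choose_spec s1_K).1

theorem q_mono : ∀ a m n, m ≤ n → q a m → q a n := (Classical.choose_spec s1_K).2.1

theorem K_iff (a : ℕ) : K a ↔ ∃ n, q a n := (Classical.choose_spec s1_K).2.2 a

/-- `n` is the first stage of `a` -/
def First (a n : ℕ) : Prop := q a n ∧ (n = 0 ∨ ¬ q a (n - 1))

theorem first_prim : PrimrecRel First := by
  have h1 : PrimrecPred fun x : ℕ × ℕ => ¬ q x.1 (x.2 - 1) :=
    PrimrecPred.not (q_prim.comp Primrec.fst (Primrec.pred.comp Primrec.snd))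
  exact PrimrecPred.and q_prim (PrimrecPred.or (Primrec.eq.comp Primrec.snd (Primrec.const 0)) h1)

theorem first_unique {a m n : ℕ} (hm : First a m) (hn : First a n) : m = n := by
  have key : ∀ {m n : ℕ}, First a m → First a n → ¬ m < n := by
    intro m n hm hn h
    rcases hn.2 with h0 | h0
    · omega
    · exact h0 (q_mono a m (n - 1) (by omega) hm.1)
  rcases lt_trichotomy m n with h | h | h
  · exact absurd h (key hm hn)
  · exact h
  · exact absurd h (key hn hm)

theorem exists_first {a : ℕ} (h : K a) : ∃ n, First a n := by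
  classical
  have h1 := (K_iff a).1 h
  refine ⟨Nat.find h1, Nat.find_spec h1, ?_⟩
  by_cases h0 : Nat.find h1 = 0
  · exact Or.inl h0
  · exact Or.inr (Nat.find_min h1 (by omega))

open Classical in
/-- the enumeration function -/
noncomputable def g (s : ℕ) : ℕ := if First s.unpair.1 s.unpair.2 then s.unpair.1 else s

theorem g_prim : Primrec g := by
  classical
  refine Primrec.ite ?_ (Primrec.fst.comp Primrec.unpair) Primrec.id
  exact first_prim.comp (Primrec.fst.comp Primrec.unpair) (Primrec.snd.comp Primrec.unpair)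

theorem g_pair {a n : ℕ} (h : First a n) : g (Nat.pair a n) = a := by
  simp [g, h]

theorem g_zero : g 0 = 0 := by
  unfold g
  split_ifs with h
  · exact Nat.le_zero.1 (Nat.unpair_left_le 0)
  · rfl

theorem g_bound (a : ℕ) : ∃ N, ∀ s, N < s → a < g s := by
  classical
  have h1 : ∀ b : ℕ, ∃ N, ∀ s, N < s → g s ≠ b := by
    intro b
    by_cases h : ∃ n, First b n
    · obtain ⟨n, hn⟩ := h
      refine ⟨max b (Nat.pair b n), fun s hs => ?_⟩
      unfold g
      split_ifs with h1
      · intro h2
        rw [h2] at h1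
        have h3 := first_unique hn h1
        have h4 : s = Nat.pair b n := by rw [← Nat.pair_unpair s, h2, h3]
        have := lt_of_le_of_lt (le_max_right b (Nat.pair b n)) hs
        omega
      · have := lt_of_le_of_lt (le_max_left b (Nat.pair b n)) hs
        omega
    · refine ⟨b, fun s hs => ?_⟩
      unfold g
      split_ifs with h1
      · intro h2
        exact h ⟨_, h2 ▸ h1⟩
      · omega
  induction a with
  | zero =>
    obtain ⟨N, hN⟩ := h1 0
    exact ⟨N, fun s hs => Nat.pos_of_ne_zero (hN s hs)⟩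
  | succ a ih =>
    obtain ⟨N, hN⟩ := ih
    obtain ⟨M, hM⟩ := h1 (a + 1)
    refine ⟨max N M, fun s hs => ?_⟩
    have h2 := hN s (lt_of_le_of_lt (le_max_left _ _) hs)
    have h3 := hM s (lt_of_le_of_lt (le_max_right _ _) hs)
    omega

/-- `s` looks true at `t` -/
def T (s t : ℕ) : Prop := ∀ u < t + 1, s < u → g s ≤ g u

theorem T_prim : PrimrecRel T := by
  refine PP.all_lt (α := ℕ × ℕ) (f := fun x => x.2 + 1) (p := fun x u => x.1 < u → g x.1 ≤ g u)
    ?_ (Primrec.succ.comp Primrec.snd)
  have h1 : PrimrecPred fun y : (ℕ × ℕ) × ℕ => ¬ y.1.1 < y.2 ∨ g y.1.1 ≤ g y.2 :=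
    PrimrecPred.or (PrimrecPred.not (Primrec.nat_lt.comp (Primrec.fst.comp Primrec.fst)
      Primrec.snd)) (Primrec.nat_le.comp (g_prim.comp (Primrec.fst.comp Primrec.fst))
      (g_prim.comp Primrec.snd))
  exact h1.of_eq fun y => by tauto

/-- the linear order -/
def le (s t : ℕ) : Prop := s = t ∨ (s < t ∧ T s t) ∨ (t < s ∧ ¬ T t s)

theorem le_prim : PrimrecRel le := by
  have h1 : PrimrecPred fun x : ℕ × ℕ => T x.2 x.1 := T_prim.comp Primrec.snd Primrec.fst
  exact PrimrecPred.or Primrec.eq (PrimrecPred.or (PrimrecPred.and Primrec.nat_lt T_prim)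
    (PrimrecPred.and (Primrec.nat_lt.comp Primrec.snd Primrec.fst) (PrimrecPred.not h1)))

theorem le_refl (s : ℕ) : le s s := Or.inl rfl

theorem le_total (s t : ℕ) : le s t ∨ le t s := by
  unfold le
  rcases lt_trichotomy s t with h | h | h
  · by_cases h1 : T s t <;> tauto
  · tauto
  · by_cases h1 : T t s <;> tauto

theorem le_antisymm {s t : ℕ} (h1 : le s t) (h2 : le t s) : s = t := by
  unfold le at h1 h2
  rcases lt_trichotomy s t with h | h | h
  · have := h.not_gt
    have := h.ne'
    tauto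
  · exact h
  · have := h.not_gt
    have := h.ne'
    tauto

theorem not_T {s t : ℕ} (h : ¬ T s t) : ∃ u, s < u ∧ u ≤ t ∧ g u < g s := by
  unfold T at h
  push Not at h
  obtain ⟨u, h1, h2, h3⟩ := h
  exact ⟨u, h2, by omega, h3⟩

theorem le_trans {s t w : ℕ} (h1 : le s t) (h2 : le t w) : le s w := by
  rcases h1 with rfl | h1
  · exact h2
  rcases h2 with rfl | h2
  · exact Or.inr h1
  rcases h1 with ⟨h1, h1'⟩ | ⟨h1, h1'⟩
  · rcases h2 with ⟨h2, h2'⟩ | ⟨h2, h2'⟩
    · -- s < t < w
      refine Or.inr (Or.inl ⟨by omega, fun u hu hsu => ?_⟩)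
      by_cases hut : u ≤ t
      · exact h1' u (by omega) hsu
      · exact (h1' t (by omega) h1).trans (h2' u hu (by omega))
    · -- s < t, w < t
      rcases lt_trichotomy s w with h | h | h
      · exact Or.inr (Or.inl ⟨h, fun u hu hsu => h1' u (by omega) hsu⟩)
      · exact Or.inl h
      · refine Or.inr (Or.inr ⟨h, fun hT => h2' fun u hu hwu => ?_⟩)
        by_cases hus : u ≤ s
        · exact hT u (by omega) hwu
        · exact (hT s (by omega) h).trans (h1' u hu (by omega))
  · rcases h2 with ⟨h2, h2'⟩ | ⟨h2, h2'⟩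
    · -- t < s, t < w
      rcases lt_trichotomy s w with h | h | h
      · exfalso
        exact h1' fun u hu htu => h2' u (by omega) htu
      · exact Or.inl h
      · refine Or.inr (Or.inr ⟨h, fun hT => h1' fun u hu htu => ?_⟩)
        by_cases huw : u ≤ w
        · exact h2' u (by omega) htu
        · exact (h2' w (by omega) h2).trans (hT u hu (by omega))
    · -- w < t < s
      exact Or.inr (Or.inr ⟨by omega, fun hT => h2' fun u hu hwu => hT u (by omega) hwu⟩)

/-- true stages -/
def Tr (s : ℕ) : Prop := ∀ u, s < u → g s ≤ g u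

theorem zero_le (x : ℕ) : le 0 x := by
  rcases Nat.eq_zero_or_pos x with rfl | h
  · exact le_refl 0
  · exact Or.inr (Or.inl ⟨h, fun u _ _ => by rw [g_zero]; exact Nat.zero_le _⟩)

theorem le_of_tr {s x : ℕ} (hs : Tr s) (hx : s < x) : le s x :=
  Or.inr (Or.inl ⟨hx, fun u _ hu => hs u hu⟩)

theorem not_le_of_not_tr {s : ℕ} (hs : ¬ Tr s) : ∃ N, ∀ x, N ≤ x → ¬ le s x := by
  unfold Tr at hs
  push Not at hs
  obtain ⟨u, h1, h2⟩ := hs
  refine ⟨u, fun x hx h => ?_⟩
  rcases h with h | ⟨_, h⟩ | ⟨h, _⟩
  · omega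
  · have := h u (by omega) h1
    omega
  · omega

theorem exists_tr (a : ℕ) : ∃ s, Tr s ∧ a < g s ∧ a < s := by
  obtain ⟨N, hN⟩ := g_bound a
  classical
  have h1 : ∃ m, ∃ s, max N a < s ∧ g s = m := ⟨_, max N a + 1, Nat.lt_succ_self _, rfl⟩
  obtain ⟨s, hs, hm⟩ := Nat.find_spec h1
  refine ⟨s, fun u hu => ?_, hN s (lt_of_le_of_lt (le_max_left _ _) hs),
    lt_of_le_of_lt (le_max_right _ _) hs⟩
  rw [hm]
  exact Nat.find_min' h1 ⟨u, by omega, rfl⟩

theorem K_of_tr {a s : ℕ} (hs : Tr s) (ha : a < g s) : K a ↔ q a s := by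
  constructor
  · intro h
    obtain ⟨n, hn⟩ := exists_first h
    have h1 : ¬ s < Nat.pair a n := fun h1 => by
      have := hs _ h1
      rw [g_pair hn] at this
      omega
    exact q_mono a n s ((Nat.right_le_pair a n).trans (not_lt.1 h1)) hn.1
  · intro h
    exact (K_iff a).2 ⟨s, h⟩

/-- the true stages are not decidable -/
theorem not_computable_tr : ¬ ComputablePred Tr := by
  intro h
  apply not_computable_K
  have h1 : S1 Tr := S1.of_re h.to_re
  have h2 : S1 fun x : ℕ × ℕ => Tr x.2 ∧ x.1 < g x.2 :=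
    S1.and (h1.comp Primrec.snd) (S1.of_prim (Primrec.nat_lt.comp Primrec.fst
      (g_prim.comp Primrec.snd)))
  obtain ⟨f, hf, hf'⟩ := S1.choose (p := fun a s => Tr s ∧ a < g s) h2 (fun a => by
    obtain ⟨s, h1, h2, _⟩ := exists_tr a
    exact ⟨s, h1, h2⟩)
  have h3 : ComputablePred fun a => q a (f a) := by
    obtain ⟨hd, hq⟩ := q_prim
    exact ⟨fun a => hd (a, f a), hq.to_comp.comp (Computable.id.pair hf)⟩
  exact h3.of_eq fun a => (K_of_tr (hf' a).1 (hf' a).2).symm

/-- minima -/
theorem exists_min_finset (F : Finset ℕ) (hF : F.Nonempty) : ∃ m ∈ F, ∀ x ∈ F, le m x := by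
  induction hF using Finset.Nonempty.cons_induction with
  | singleton a => exact ⟨a, by simp, fun x hx => by rw [Finset.mem_singleton.1 hx]; exact le_refl a⟩
  | cons a s ha hs ih =>
    obtain ⟨m, hm, hm'⟩ := ih
    rcases le_total a m with h | h
    · refine ⟨a, by simp, fun x hx => ?_⟩
      rcases Finset.mem_cons.1 hx with rfl | hx
      · exact le_refl _
      · exact le_trans h (hm' x hx)
    · refine ⟨m, Finset.mem_cons.2 (Or.inr hm), fun x hx => ?_⟩
      rcases Finset.mem_cons.1 hx with rfl | hx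
      · exact h
      · exact hm' x hx

theorem exists_max_finset (F : Finset ℕ) (hF : F.Nonempty) : ∃ m ∈ F, ∀ x ∈ F, le x m := by
  induction hF using Finset.Nonempty.cons_induction with
  | singleton a => exact ⟨a, by simp, fun x hx => by rw [Finset.mem_singleton.1 hx]; exact le_refl a⟩
  | cons a s ha hs ih =>
    obtain ⟨m, hm, hm'⟩ := ih
    rcases le_total a m with h | h
    · refine ⟨m, Finset.mem_cons.2 (Or.inr hm), fun x hx => ?_⟩
      rcases Finset.mem_cons.1 hx with rfl | hx
      · exact h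
      · exact hm' x hx
    · refine ⟨a, by simp, fun x hx => ?_⟩
      rcases Finset.mem_cons.1 hx with rfl | hx
      · exact le_refl _
      · exact le_trans (hm' x hx) h

theorem exists_min (A : Set ℕ) (a : ℕ) (ha : a ∈ A) (h : {y ∈ A | le y a}.Finite) :
    ∃ m ∈ A, ∀ y ∈ A, le m y := by
  classical
  obtain ⟨m, hm, hm'⟩ := exists_min_finset h.toFinset ⟨a, by simpa using ⟨ha, le_refl a⟩⟩
  rw [Set.Finite.mem_toFinset] at hm
  refine ⟨m, hm.1, fun y hy => ?_⟩
  rcases le_total y a with h1 | h1
  · exact hm' y (by rw [Set.Finite.mem_toFinset]; exact ⟨hy, h1⟩)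
  · exact le_trans hm.2 h1

end Pool.Agent.Y548.FC
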