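import Pool.Agent.Y548.Base

set_option autoImplicit false

namespace Pool.Agent.Y548

open Encodable Pool.Agent.Helper227
open Nat.Partrec (Code)

namespace Gen

/-- the `e`-th c.e. set of strings -/
def WS (e : ℕ) (σ : List Bool) : Prop := ((Denumerable.ofNat Code e).eval (encode σ)).Dom

theorem s1_WS : S1 fun x : ℕ × List Bool => WS x.1 x.2 :=
  s1_eval.comp (f := fun x : ℕ × List Bool => (Denumerable.ofNat Code x.1, encode x.2))
    (((Primrec.ofNat Code).comp Primrec.fst).pair (Primrec.encode.comp Primrec.snd))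

theorem exists_WS {S : List Bool → Prop} (hS : S1 S) : ∃ e, ∀ σ, WS e σ ↔ S σ := by
  obtain ⟨c, hc⟩ := Nat.Partrec.Code.exists_code.1 hS.re
  refine ⟨encode c, fun σ => ?_⟩
  unfold WS
  rw [Denumerable.ofNat_encode, hc]
  simp [Part.assert]

/-- `τ` extends `σ` and is in the `e`-th set -/
def P (x : (ℕ × List Bool) × List Bool) : Prop := x.1.2 <+: x.2 ∧ WS x.1.1 x.2

theorem prim_prefix : PrimrecPred fun x : List Bool × List Bool => x.1 <+: x.2 := by
  have h : PrimrecPred fun x : List Bool × List Bool => x.1 = x.2.take x.1.length :=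
    Primrec.eq.comp Primrec.fst (Primrec.list_take.comp (Primrec.list_length.comp Primrec.fst)
      Primrec.snd)
  exact h.of_eq fun x => List.prefix_iff_eq_take.symm

theorem s1_P : S1 P := by
  refine S1.and (S1.of_prim ?_) (s1_WS.comp (f := fun x : (ℕ × List Bool) × List Bool => (x.1.1, x.2)) ?_)
  · exact prim_prefix.comp ((Primrec.snd.comp Primrec.fst).pair Primrec.snd)
  · exact (Primrec.fst.comp Primrec.fst).pair Primrec.snd

/-- decoding of strings -/
def dst (k : ℕ) : List Bool := (decode (α := List Bool) (Nat.unpair k).2).getD []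

theorem prim_dst : Primrec dst :=
  Primrec.option_getD.comp (Primrec.decode.comp (Primrec.snd.comp Primrec.unpair)) (Primrec.const [])

/-- there is a partial computable way to choose extensions -/
theorem exists_choice : ∃ Q : (ℕ × List Bool) × List Bool → Prop, S1 Q ∧ (∀ x, Q x → P x) ∧
    (∀ a τ τ', Q (a, τ) → Q (a, τ') → τ = τ') ∧ ∀ a, (∃ τ, P (a, τ)) → ∃ τ, Q (a, τ) := by
  classical
  obtain ⟨q, hq, hm, he⟩ := s1_P
  -- `k` codes `(n, τ)`
  have hpred : PrimrecRel fun (x : (ℕ × List Bool)) (k : ℕ) =>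
      q (x, dst k) (Nat.unpair k).1 := by
    refine hq.comp (Primrec.fst.pair (prim_dst.comp Primrec.snd))
      (Primrec.fst.comp (Primrec.unpair.comp Primrec.snd))
  let R : (ℕ × List Bool) × ℕ → Prop := fun x => q (x.1, dst x.2) (Nat.unpair x.2).1
  have hR : PrimrecPred R := hpred
  refine ⟨fun x => ∃ k : ℕ, (R (x.1, k) ∧ ∀ k' < k, ¬ R (x.1, k')) ∧
    x.2 = dst k, ?_, ?_, ?_, ?_⟩
  · refine S1.ex (S1.and (S1.and (S1.of_prim ?_) (S1.of_prim ?_)) (S1.of_prim ?_))
    · exact hR.comp ((Primrec.fst.comp Primrec.fst).pair Primrec.snd)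
    · refine PP.all_lt (α := ((ℕ × List Bool) × List Bool) × ℕ) (f := fun x => x.2)
        (p := fun x k' => ¬ R (x.1.1, k')) ?_ Primrec.snd
      exact (hR.comp ((Primrec.fst.comp (Primrec.fst.comp Primrec.fst)).pair Primrec.snd)).not
    · exact Primrec.eq.comp (Primrec.snd.comp Primrec.fst) (prim_dst.comp Primrec.snd)
  · rintro ⟨a, τ⟩ ⟨k, ⟨h1, _⟩, h2⟩
    refine (he _).2 ⟨(Nat.unpair k).1, ?_⟩
    simp only at h2
    rw [h2]
    exact h1
  · rintro a τ τ' ⟨k, ⟨h1, h2⟩, h3⟩ ⟨k', ⟨h1', h2'⟩, h3'⟩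
    simp only at h1 h2 h3 h1' h2' h3'
    have : k = k' := by
      rcases lt_trichotomy k k' with h | h | h
      · exact absurd h1 (h2' _ h)
      · exact h
      · exact absurd h1' (h2 _ h)
    rw [h3, h3', this]
  · rintro a ⟨τ, hτ⟩
    have hex : ∃ k, R (a, k) := by
      obtain ⟨n, hn⟩ := (he (a, τ)).1 hτ
      exact ⟨Nat.pair n (encode τ), by simpa [R, dst] using hn⟩
    exact ⟨_, Nat.find hex, ⟨Nat.find_spec hex, fun k' hk' => Nat.find_min hex hk'⟩, rfl⟩

/-- There is a set computable from the halting problem that is generic for all c.e. sets of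
strings. -/
theorem exists_generic : ∃ G : ℕ → Bool, TLe G K0 ∧
    ∀ S : List Bool → Prop, S1 S → ∃ n, S (pre G n) ∨ ∀ τ, pre G n <+: τ → ¬ S τ := by
  classical
  obtain ⟨Q, hQ, hQP, hQu, hQe⟩ := exists_choice
  -- one step
  let Step : (ℕ × List Bool) × List Bool → Prop := fun x =>
    (∃ τ, Q (x.1, τ) ∧ x.2 = τ ++ [false]) ∨ ((¬ ∃ τ, Q (x.1, τ)) ∧ x.2 = x.1.2 ++ [false])
  have hStepU : ∀ a τ τ', Step (a, τ) → Step (a, τ') → τ = τ' := by
    rintro a τ τ' (⟨ρ, h1, h2⟩ | ⟨h1, h2⟩) (⟨ρ', h1', h2'⟩ | ⟨h1', h2'⟩)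
    · simp only at h2 h2'
      rw [h2, h2', hQu a ρ ρ' h1 h1']
    · exact absurd ⟨ρ, h1⟩ h1'
    · exact absurd ⟨ρ', h1'⟩ h1
    · simp only at h2 h2'
      rw [h2, h2']
  have hStepE : ∀ a, ∃ τ, Step (a, τ) := by
    intro a
    by_cases h : ∃ τ, Q (a, τ)
    · obtain ⟨τ, hτ⟩ := h
      exact ⟨τ ++ [false], Or.inl ⟨τ, hτ, rfl⟩⟩
    · exact ⟨a.2 ++ [false], Or.inr ⟨h, rfl⟩⟩
  have hStepS : SI K0 Step := by
    have hex : S1 fun a : ℕ × List Bool => ∃ τ, Q (a, τ) := S1.ex (p := fun a τ => Q (a, τ)) hQ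
    obtain ⟨_, hex2⟩ := S1.decide_K0 hex
    refine SI.or (SI.of_s1 ?_) (SI.and (hex2.comp Primrec.fst) (SI.of_prim ?_))
    · refine S1.ex (p := fun (x : (ℕ × List Bool) × List Bool) (τ : List Bool) =>
        Q (x.1, τ) ∧ x.2 = τ ++ [false]) (S1.and (hQ.comp ?_) (S1.of_prim ?_))
      · exact (Primrec.fst.comp Primrec.fst).pair Primrec.snd
      · exact Primrec.eq.comp (Primrec.snd.comp Primrec.fst)
          (Primrec.list_append.comp Primrec.snd (Primrec.const [false]))
    · exact Primrec.eq.comp Primrec.snd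
        (Primrec.list_append.comp (Primrec.snd.comp Primrec.fst) (Primrec.const [false]))
  choose st hst using hStepE
  let s : ℕ → List Bool := fun n => Nat.rec [] (fun e σ => st (e, σ)) n
  have hs0 : s 0 = [] := rfl
  have hs1 : ∀ e, s (e + 1) = st (e, s e) := fun e => rfl
  have hsS : ∀ e, Step ((e, s e), s (e + 1)) := fun e => by rw [hs1]; exact hst _
  have hslen : ∀ e, s e <+: s (e + 1) ∧ (s e).length < (s (e + 1)).length := by
    intro e
    rcases hsS e with ⟨τ, h1, h2⟩ | ⟨h1, h2⟩
    · simp only at h2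
      have h3 := (hQP _ h1).1
      simp only at h3
      rw [h2]
      refine ⟨h3.trans (List.prefix_append _ _), ?_⟩
      have := h3.length_le
      simp
      omega
    · simp only at h2
      rw [h2]
      exact ⟨List.prefix_append _ _, by simp⟩
  have hmono : ∀ m n, m ≤ n → s m <+: s n := by
    intro m n h
    induction n, h using Nat.le_induction with
    | base => exact List.prefix_refl _
    | succ n _ ih => exact ih.trans (hslen n).1
  have hlen : ∀ n, n ≤ (s n).length := by
    intro n
    induction n with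
    | zero => simp
    | succ n ih => have := (hslen n).2; omega
  let G : ℕ → Bool := fun n => (s (n + 1)).getD n false
  have hG : ∀ m i, i < (s m).length → G i = (s m).getD i false := by
    intro m i hi
    have h1 : i < (s (i + 1)).length := lt_of_lt_of_le (Nat.lt_succ_self i) (hlen (i + 1))
    show (s (i + 1)).getD i false = _
    rcases le_total m (i + 1) with h | h
    · have := hmono _ _ h
      rw [List.getD_eq_getElem _ _ h1, List.getD_eq_getElem _ _ hi, this.getElem hi]
    · have := hmono _ _ h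
      rw [List.getD_eq_getElem _ _ h1, List.getD_eq_getElem _ _ hi, this.getElem h1]
  have hpre : ∀ m n, n ≤ (s m).length → pre G n = (s m).take n := by
    intro m n hn
    refine List.ext_getElem (by simp [hn]) fun i h1 h2 => ?_
    have hi : i < n := by simpa using h1
    rw [getElem_pre, hG m i (by omega), List.getD_eq_getElem _ _ (by omega), List.getElem_take]
  -- the graph of `s`
  have hgraph : SI K0 fun x : ℕ × List Bool => s x.1 = x.2 := by
    have h1 : SI K0 fun x : ℕ × List Bool => ∃ L : List (List Bool),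
        ((L.getD 0 [] = []) ∧ ∀ i < x.1, Step ((i, L.getD i []), L.getD (i + 1) [])) ∧
          L.getD x.1 [] = x.2 := by
      refine SI.ex (p := fun (x : ℕ × List Bool) (L : List (List Bool)) =>
        ((L.getD 0 [] = []) ∧ ∀ i < x.1, Step ((i, L.getD i []), L.getD (i + 1) [])) ∧
          L.getD x.1 [] = x.2) (SI.and (SI.and (SI.of_prim ?_) ?_) (SI.of_prim ?_))
      · exact Primrec.eq.comp ((Primrec.list_getD []).comp Primrec.snd (Primrec.const 0))
          (Primrec.const [])
      · refine SI.all_lt (α := (ℕ × List Bool) × List (List Bool)) (f := fun x => x.1.1)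
          (p := fun x i => Step ((i, x.2.getD i []), x.2.getD (i + 1) [])) ?_
          (Primrec.fst.comp Primrec.fst)
        refine hStepS.comp (f := fun z : ((ℕ × List Bool) × List (List Bool)) × ℕ =>
          ((z.2, z.1.2.getD z.2 []), z.1.2.getD (z.2 + 1) [])) ?_
        have g : Primrec fun z : ((ℕ × List Bool) × List (List Bool)) × ℕ => z.1.2 :=
          Primrec.snd.comp Primrec.fst
        exact (Primrec.snd.pair ((Primrec.list_getD []).comp g Primrec.snd)).pair
          ((Primrec.list_getD []).comp g (Primrec.succ.comp Primrec.snd))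
      · exact Primrec.eq.comp ((Primrec.list_getD []).comp Primrec.snd (Primrec.fst.comp Primrec.fst))
          (Primrec.snd.comp Primrec.fst)
    refine h1.of_eq fun x => ?_
    constructor
    · rintro ⟨L, ⟨h2, h3⟩, h4⟩
      have : ∀ i ≤ x.1, L.getD i [] = s i := by
        intro i
        induction i with
        | zero => intro _; rw [h2, hs0]
        | succ i ih =>
          intro hi
          have h5 := h3 i (by omega)
          rw [ih (by omega)] at h5
          exact hStepU _ _ _ h5 (hsS i)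
      rw [← this x.1 le_rfl, h4]
    · intro h
      refine ⟨(List.range (x.1 + 1)).map s, ⟨?_, ?_⟩, ?_⟩
      · simp [List.getD, hs0]
      · intro i hi
        have e1 : ((List.range (x.1 + 1)).map s).getD i [] = s i := by
          simp [List.getD, show i < x.1 + 1 by omega]
        have e2 : ((List.range (x.1 + 1)).map s).getD (i + 1) [] = s (i + 1) := by
          simp [List.getD, hi]
        rw [e1, e2]
        exact hsS i
      · simp [List.getD, h]
  refine ⟨G, ?_, ?_⟩
  · rw [tLe_iff_SI]
    have h1 : SI K0 fun x : ℕ × Bool => ∃ σ : List Bool, s (x.1 + 1) = σ ∧ σ.getD x.1 false = x.2 := by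
      refine SI.ex (p := fun (x : ℕ × Bool) (σ : List Bool) => s (x.1 + 1) = σ ∧
        σ.getD x.1 false = x.2) (SI.and ?_ (SI.of_prim ?_))
      · exact hgraph.comp (f := fun z : (ℕ × Bool) × List Bool => (z.1.1 + 1, z.2))
          ((Primrec.succ.comp (Primrec.fst.comp Primrec.fst)).pair Primrec.snd)
      · exact Primrec.eq.comp ((Primrec.list_getD false).comp Primrec.snd
          (Primrec.fst.comp Primrec.fst)) (Primrec.snd.comp Primrec.fst)
    refine h1.of_eq fun x => ?_
    constructor
    · rintro ⟨σ, rfl, h⟩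
      exact h
    · intro h
      exact ⟨_, rfl, h⟩
  · intro S hS
    obtain ⟨e, he⟩ := exists_WS hS
    by_cases hP : ∃ τ, P ((e, s e), τ)
    · rcases hsS e with ⟨τ, h1, h2⟩ | ⟨h1, _⟩
      · refine ⟨τ.length, Or.inl ?_⟩
        have h3 := hQP _ h1
        have h4 : pre G τ.length = τ := by
          simp only at h2
          rw [hpre (e + 1) τ.length (by rw [h2]; simp), h2]
          simp
        rw [h4]
        exact (he _).1 h3.2
      · exact absurd (hQe _ hP) h1
    · refine ⟨(s e).length, Or.inr fun τ hτ hS' => hP ⟨τ, ?_, (he _).2 hS'⟩⟩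
      rw [hpre e _ le_rfl, List.take_length] at hτ
      exact hτ

/-- A generic set is not computable. -/
theorem not_computable {G : ℕ → Bool}
    (hG : ∀ S : List Bool → Prop, S1 S → ∃ n, S (pre G n) ∨ ∀ τ, pre G n <+: τ → ¬ S τ) :
    ¬ Computable G := by
  intro hc
  have hg : S1 fun x : ℕ × Bool => G x.1 = x.2 := by
    refine S1.comp_computable (p := fun y : Bool × Bool => y.1 = y.2)
      (f := fun x : ℕ × Bool => (G x.1, x.2)) (S1.of_prim ?_) ?_
    · exact Primrec.eq.comp Primrec.fst Primrec.snd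
    · exact (hc.comp Computable.fst).pair Computable.snd
  have hS : S1 fun σ : List Bool => ∃ i : ℕ, i < σ.length ∧ G i = !(σ.getD i false) := by
    refine S1.ex (p := fun (σ : List Bool) (i : ℕ) => i < σ.length ∧ G i = !(σ.getD i false))
      (S1.and (S1.of_prim ?_) ?_)
    · exact Primrec.nat_lt.comp Primrec.snd (Primrec.list_length.comp Primrec.fst)
    · exact hg.comp (f := fun x : List Bool × ℕ => (x.2, !(x.1.getD x.2 false)))
        (Primrec.snd.pair (Primrec.not.comp ((Primrec.list_getD false).comp Primrec.fst Primrec.snd)))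
  obtain ⟨n, h | h⟩ := hG _ hS
  · obtain ⟨i, h1, h2⟩ := h
    rw [length_pre] at h1
    rw [pre_getD G n i false h1] at h2
    cases hb : G i <;> simp [hb] at h2
  · refine h (pre G n ++ [!(G n)]) (List.prefix_append _ _) ⟨n, by simp, ?_⟩
    have : (pre G n ++ [!(G n)]).getD n false = !(G n) := by
      rw [List.getD_eq_getElem _ _ (by simp)]
      simp
    rw [this]
    simp

/-- A c.e. relation decidable relative to a generic set is computable. -/
theorem co_s1 {G : ℕ → Bool}
    (hG : ∀ S : List Bool → Prop, S1 S → ∃ n, S (pre G n) ∨ ∀ τ, pre G n <+: τ → ¬ S τ)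
    {α : Type*} [Primcodable α] {p : α → Prop} (hp : S1 p) (hn : SI G fun a => ¬ p a) :
    S1 fun a => ¬ p a := by
  obtain ⟨E, hE, mE, eE⟩ := hn
  have hS : S1 fun σ : List Bool => ∃ a : α, E (σ, a) ∧ p a :=
    S1.ex (p := fun (σ : List Bool) (a : α) => E (σ, a) ∧ p a) (S1.and hE (hp.comp Primrec.snd))
  obtain ⟨n, h | h⟩ := hG _ hS
  · obtain ⟨a, h1, h2⟩ := h
    exact absurd h2 ((eE a).2 ⟨n, h1⟩)
  · have h1 : S1 fun a : α => ∃ τ : List Bool, pre G n <+: τ ∧ E (τ, a) := by
      refine S1.ex (p := fun (a : α) (τ : List Bool) => pre G n <+: τ ∧ E (τ, a))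
        (S1.and (S1.of_prim ?_) (hE.comp (Primrec.snd.pair Primrec.fst)))
      exact prim_prefix.comp ((Primrec.const (pre G n)).pair Primrec.snd)
    refine h1.of_eq fun a => ?_
    constructor
    · rintro ⟨τ, h2, h3⟩ h4
      exact h τ h2 ⟨a, h3, h4⟩
    · intro h2
      obtain ⟨s, hs⟩ := (eE a).1 h2
      exact ⟨pre G (max n s), pre_prefix G (le_max_left _ _), mE _ _ _
        (pre_prefix G (le_max_right _ _)) hs⟩

end Gen

end Pool.Agent.Y548
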